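import Pool.Agent.helper58.FI4E.Spec

set_option autoImplicit false

namespace Pool.Agent.FI4E

open Pool.Agent.helper58.DC Pool.Agent.DI Pool.Agent.GR Pool.Agent.OB Pool.Agent.DR Pool.Agent.FI Pool.Agent.FI3 Pool.Agent.FI4 Pool.Agent.FI4I

/-- the elements of the holomorph which lie over `H` -/
def SCG_N {G : Type} [Group G] (H : Subgroup G) : Subgroup (G ⋊[MonoidHom.id (MulAut G)] MulAut G) where
  carrier := {e | e.left ∈ H ∧ am e.right H = H}
  mul_mem' := by
    rintro a b ⟨ha, ha'⟩ ⟨hb, hb'⟩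
    refine ⟨?_, ?_⟩
    · change a.left * (a.right b.left) ∈ H
      refine H.mul_mem ha ?_
      have h1 : a.right b.left ∈ am a.right H := by
        rw [mem_am, MulAut.inv_apply_self]
        exact hb
      rw [ha'] at h1
      exact h1
    · change am (a.right * b.right) H = H
      rw [am_mul, hb', ha']
  one_mem' := ⟨H.one_mem, am_one H⟩
  inv_mem' := by
    rintro a ⟨ha, ha'⟩
    refine ⟨?_, ?_⟩
    · change (a.right⁻¹ : MulAut G) (a.left⁻¹) ∈ H
      have h1 : a.left⁻¹ ∈ am a.right H := by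
        rw [ha']
        exact H.inv_mem ha
      exact mem_am.1 h1
    · change am (a.right⁻¹) H = H
      have h1 : am (a.right⁻¹) (am a.right H) = H := by
        rw [← am_mul, inv_mul_cancel, am_one]
      rw [ha'] at h1
      exact h1

theorem SCG_comap {G : Type} [Group G] (H : Subgroup G) : (SCG_N H).comap (hol G).inc = H := by
  ext x
  constructor
  · intro h
    exact h.1
  · intro h
    exact ⟨h, am_one H⟩

theorem SCG_bij {G : Type} [Group G] (H : Subgroup G) (α : MulAut G) (hα : am α H = H) :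
    Set.BijOn (fun h : G => (⟨h, α⟩ : G ⋊[MonoidHom.id (MulAut G)] MulAut G)) (H : Set G)
      {e | e ∈ SCG_N H ∧ (hol G).proj e = α} := by
  refine ⟨?_, ?_, ?_⟩
  · intro h hh
    exact ⟨⟨hh, hα⟩, rfl⟩
  · intro h _ h' _ he
    exact congrArg SemidirectProduct.left he
  · rintro e ⟨⟨h1, h2⟩, h3⟩
    refine ⟨e.left, h1, ?_⟩
    apply SemidirectProduct.ext
    · rfl
    · exact h3.symm

theorem SCG_ex (p n : ℕ) : Ex p n (RingEquiv.refl ℂ) 1 where
  cop := Nat.coprime_one_left n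
  act := fun ζ _ => (pow_one ζ).symm
  reg := fun _ _ _ => rfl

theorem SCG (hSEC : SEC_stmt) (hTAU : TAU_stmt) : SCG_stmt := by
  intro p M hp G _ _ χ H α hα
  have h1 := hSEC p M hp G (G ⋊[MonoidHom.id (MulAut G)] MulAut G) (MulAut G) (hol G) χ α (RingEquiv.refl ℂ) 1
    (SCG_ex p (Nat.card G)) (SCG_N H)
  rw [SCG_comap] at h1
  have h2 : ∑ᶠ h ∈ (H : Set G), (cnt M χ H (al α h) (RingEquiv.refl ℂ) : ℂ) =
      ∑ᶠ e ∈ {e | e ∈ SCG_N H ∧ (hol G).proj e = α}, (cnt M χ H ((hol G).act e) (RingEquiv.refl ℂ) : ℂ) := by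
    apply finsum_mem_eq_of_bijOn _ (SCG_bij H α hα)
    intro h _
    rfl
  have h3 : ∑ᶠ h ∈ (H : Set G), ∑ᶠ y ∈ {y : G | y ∈ H ∧ PEl p y ∧ al α h y = y}, tL p M χ (Cz H y) (al α h) =
      ∑ᶠ e ∈ {e | e ∈ SCG_N H ∧ (hol G).proj e = α},
        ∑ᶠ y ∈ {y : G | y ∈ H ∧ PEl p y ∧ (((hol G).act e)⁻¹ y) ^ 1 = y}, tau p M χ (Cz H y) ((hol G).act e) := by
    apply finsum_mem_eq_of_bijOn _ (SCG_bij H α hα)
    intro h _
    change ∑ᶠ y ∈ {y : G | y ∈ H ∧ PEl p y ∧ al α h y = y}, tL p M χ (Cz H y) (al α h) =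
      ∑ᶠ y ∈ {y : G | y ∈ H ∧ PEl p y ∧ ((al α h)⁻¹ y) ^ 1 = y}, tau p M χ (Cz H y) (al α h)
    have h4 : {y : G | y ∈ H ∧ PEl p y ∧ al α h y = y} = {y : G | y ∈ H ∧ PEl p y ∧ ((al α h)⁻¹ y) ^ 1 = y} := by
      ext y
      constructor
      · rintro ⟨a, b, c⟩
        refine ⟨a, b, ?_⟩
        rw [pow_one]
        nth_rewrite 1 [← c]
        exact MulAut.inv_apply_self G (al α h) y
      · rintro ⟨a, b, c⟩
        refine ⟨a, b, ?_⟩
        rw [pow_one] at c
        nth_rewrite 1 [← c]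
        exact MulAut.apply_inv_self G (al α h) y
    rw [h4]
    apply finsum_congr
    intro y
    apply finsum_congr
    intro _
    exact (hTAU p M G χ (Cz H y) (al α h)).symm
  rw [h2, h3]
  exact h1

end Pool.Agent.FI4E
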